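import Mathlib

namespace Pool.Agent.Results.MP_f91e62_co.Lower

open Finset

/-- A complete `k`-partite `k`-graph on `[n]`, given by its pairwise disjoint nonempty parts. -/
structure KPart (k n : ℕ) where
  part : Fin k → Finset (Fin n)
  ne : ∀ j, (part j).Nonempty
  disj : ∀ i j, i ≠ j → Disjoint (part i) (part j)

/-- The edges are the sets `{x 1, …, x k}` with `x j` in the `j`-th part. -/
def IsEdge {k n : ℕ} (H : KPart k n) (e : Finset (Fin n)) : Prop :=
  ∃ x : Fin k → Fin n, (∀ j, x j ∈ H.part j) ∧ e = Finset.univ.image x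

open Classical in
/-- Every `k`-subset is an edge of at least one and at most `l` of the `H i`. -/
def IsCovering {k n m : ℕ} (l : ℕ) (H : Fin m → KPart k n) : Prop :=
  ∀ e : Finset (Fin n), e.card = k →
    1 ≤ (Finset.univ.filter (fun i => IsEdge (H i) e)).card ∧
      (Finset.univ.filter (fun i => IsEdge (H i) e)).card ≤ l

/-- `m_{k,l}(n)`: the least size of a `k`-partite covering of order `l`. -/
noncomputable def mm (k l n : ℕ) : ℕ :=
  sInf {m | ∃ H : Fin m → KPart k n, IsCovering l H}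

open Classical in
noncomputable def hit {k n : ℕ} (H : KPart k n) (U : Finset (Fin n)) : Finset (Fin k) :=
  Finset.univ.filter (fun j => ∃ a ∈ U, a ∈ H.part j)

def good {k n : ℕ} (H : KPart k n) (U : Finset (Fin n)) : Prop :=
  (∀ a ∈ U, ∃ j, a ∈ H.part j) ∧ ∀ j, ∀ a ∈ U, ∀ b ∈ U, a ∈ H.part j → b ∈ H.part j → a = b

lemma mem_hit {k n : ℕ} (H : KPart k n) (U : Finset (Fin n)) (j : Fin k) :
    j ∈ hit H U ↔ ∃ a ∈ U, a ∈ H.part j := by
  simp [hit]

lemma key {k n : ℕ} (H : KPart k n) (U W : Finset (Fin n)) :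
    ((hit H W = (hit H U)ᶜ ∧ good H W) ∧ good H U) ↔ (Disjoint U W ∧ IsEdge H (U ∪ W)) := by
  constructor
  · rintro ⟨⟨h1, gW⟩, gU⟩
    have hx : ∀ j, j ∈ hit H W ↔ ¬ j ∈ hit H U := by
      intro j; rw [h1, Finset.mem_compl]
    refine ⟨?_, ?_⟩
    · rw [Finset.disjoint_left]
      intro a haU haW
      obtain ⟨j, hj⟩ := gU.1 a haU
      exact (hx j).1 ((mem_hit H W j).2 ⟨a, haW, hj⟩) ((mem_hit H U j).2 ⟨a, haU, hj⟩)
    · have hex : ∀ j, ∃ a, a ∈ H.part j ∧ a ∈ U ∪ W := by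
        intro j
        by_cases hj : j ∈ hit H U
        · obtain ⟨a, ha, ha'⟩ := (mem_hit H U j).1 hj
          exact ⟨a, ha', Finset.mem_union_left _ ha⟩
        · obtain ⟨a, ha, ha'⟩ := (mem_hit H W j).1 ((hx j).2 hj)
          exact ⟨a, ha', Finset.mem_union_right _ ha⟩
      choose x hx1 hx2 using hex
      refine ⟨x, hx1, ?_⟩
      ext a
      simp only [Finset.mem_image, Finset.mem_univ, true_and]
      constructor
      · intro ha
        rcases Finset.mem_union.1 ha with ha | ha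
        · obtain ⟨j, hj⟩ := gU.1 a ha
          refine ⟨j, ?_⟩
          rcases Finset.mem_union.1 (hx2 j) with h | h
          · exact gU.2 j _ h _ ha (hx1 j) hj
          · exact absurd ((mem_hit H U j).2 ⟨a, ha, hj⟩)
              ((hx j).1 ((mem_hit H W j).2 ⟨_, h, hx1 j⟩))
        · obtain ⟨j, hj⟩ := gW.1 a ha
          refine ⟨j, ?_⟩
          rcases Finset.mem_union.1 (hx2 j) with h | h
          · exact absurd ((mem_hit H U j).2 ⟨_, h, hx1 j⟩)
              ((hx j).1 ((mem_hit H W j).2 ⟨a, ha, hj⟩))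
          · exact gW.2 j _ h _ ha (hx1 j) hj
      · rintro ⟨j, rfl⟩
        exact hx2 j
  · rintro ⟨hd, x, hx, he⟩
    have h1 : ∀ a ∈ U ∪ W, ∃ j, x j = a := by
      intro a ha
      rw [he] at ha
      simpa using ha
    have h2 : ∀ j, ∀ a ∈ U ∪ W, a ∈ H.part j → a = x j := by
      intro j a ha haj
      obtain ⟨i, rfl⟩ := h1 a ha
      by_cases hij : i = j
      · rw [hij]
      · exact absurd haj (Finset.disjoint_left.1 (H.disj i j hij) (hx i))
    have h3 : ∀ j, x j ∈ U ∪ W := by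
      intro j; rw [he]; exact Finset.mem_image_of_mem _ (Finset.mem_univ j)
    have hg : ∀ V : Finset (Fin n), V ⊆ U ∪ W → good H V := by
      intro V hV
      refine ⟨fun a ha => ?_, fun j a ha b hb haj hbj => ?_⟩
      · obtain ⟨j, rfl⟩ := h1 a (hV ha)
        exact ⟨j, hx j⟩
      · rw [h2 j a (hV ha) haj, h2 j b (hV hb) hbj]
    refine ⟨⟨?_, hg W Finset.subset_union_right⟩, hg U Finset.subset_union_left⟩
    ext j
    rw [Finset.mem_compl, mem_hit, mem_hit]
    constructor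
    · rintro ⟨a, ha, haj⟩ ⟨b, hb, hbj⟩
      have e1 := h2 j a (Finset.mem_union_right _ ha) haj
      have e2 := h2 j b (Finset.mem_union_left _ hb) hbj
      rw [e1] at ha
      rw [e2] at hb
      exact Finset.disjoint_left.1 hd hb ha
    · intro h
      rcases Finset.mem_union.1 (h3 j) with h' | h'
      · exact absurd ⟨_, h', hx j⟩ h
      · exact ⟨_, h', hx j⟩

/-- rank bound: an invertible matrix does not factor through a smaller index set -/
lemma card_le_of_factor {α β : Type} [Fintype α] [Fintype β] [DecidableEq α]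
    (P : Matrix α β ℚ) (Q : Matrix β α ℚ) (R : Matrix α α ℚ) (h : P * Q * R = 1) :
    Fintype.card α ≤ Fintype.card β := by
  have h1 : (1 : Matrix α α ℚ).rank = Fintype.card α := Matrix.rank_one
  rw [← h1, ← h]
  exact (Matrix.rank_mul_le_left _ _).trans
    ((Matrix.rank_mul_le_left _ _).trans (Matrix.rank_le_card_width _))

lemma inv_one {t : ℕ} (ht : 2 ≤ t) (a c : Fin t) :
    ∑ b : Fin t, (if a = b then (0 : ℚ) else 1) * (1 / ((t : ℚ) - 1) - if b = c then 1 else 0)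
      = if a = c then 1 else 0 := by
  have h0 : (t : ℚ) - 1 ≠ 0 := by
    have : (2 : ℚ) ≤ t := by exact_mod_cast ht
    linarith
  have e : ∀ b : Fin t, (if a = b then (0 : ℚ) else 1) *
      (1 / ((t : ℚ) - 1) - if b = c then 1 else 0) =
      1 / ((t : ℚ) - 1) - (if b = c then 1 else 0) -
        (if a = b then (1 / ((t : ℚ) - 1) - if a = c then 1 else 0) else 0) := by
    intro b
    by_cases hab : a = b
    · subst hab; simp
    · simp [hab]
  rw [Finset.sum_congr rfl (fun b _ => e b), Finset.sum_sub_distrib, Finset.sum_sub_distrib]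
  simp only [Finset.sum_const, Finset.card_univ, Fintype.card_fin, Finset.sum_ite_eq,
    Finset.sum_ite_eq', Finset.mem_univ, if_true, nsmul_eq_mul]
  field_simp
  ring

lemma inv_all {r t : ℕ} (ht : 2 ≤ t) (A C : Fin r → Fin t) :
    ∑ B : Fin r → Fin t, (if ∀ j, A j ≠ B j then (1 : ℚ) else 0) *
      ∏ j, (1 / ((t : ℚ) - 1) - if B j = C j then 1 else 0) = if A = C then 1 else 0 := by
  have e : ∀ B : Fin r → Fin t, (if ∀ j, A j ≠ B j then (1 : ℚ) else 0) *
      ∏ j, (1 / ((t : ℚ) - 1) - if B j = C j then 1 else 0) =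
      ∏ j, ((if A j = B j then (0 : ℚ) else 1) *
        (1 / ((t : ℚ) - 1) - if B j = C j then 1 else 0)) := by
    intro B
    rw [Finset.prod_mul_distrib]
    congr 1
    by_cases h : ∀ j, A j ≠ B j
    · rw [if_pos h]
      exact (Finset.prod_eq_one (fun j _ => if_neg (h j))).symm
    · rw [if_neg h]
      push Not at h
      obtain ⟨j, hj⟩ := h
      symm
      exact Finset.prod_eq_zero (Finset.mem_univ j) (if_pos hj)
  rw [Finset.sum_congr rfl (fun B _ => e B)]
  have h2 := Finset.prod_univ_sum (fun _ : Fin r => (Finset.univ : Finset (Fin t)))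
    (fun j b => (if A j = b then (0 : ℚ) else 1) *
        (1 / ((t : ℚ) - 1) - if b = C j then 1 else 0))
  rw [Fintype.piFinset_univ] at h2
  rw [← h2, Finset.prod_congr rfl (fun j _ => inv_one ht (A j) (C j))]
  by_cases h : A = C
  · subst h; simp
  · rw [if_neg h]
    obtain ⟨j, hj⟩ := Function.ne_iff.1 h
    exact Finset.prod_eq_zero (Finset.mem_univ j) (if_neg hj)

/-- abstract form of the rank argument -/
lemma rank_arg {r t l : ℕ} (ht : 2 ≤ t) {ι : Type} [Fintype ι]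
    (f g : ι → (Fin r → Fin t) → ℚ)
    (h1 : ∀ A B : Fin r → Fin t, (∀ j, A j ≠ B j) →
      ∃ s : Fin l, ∑ i, f i A * g i B = ((s : ℕ) : ℚ) + 1)
    (h0 : ∀ A B : Fin r → Fin t, ¬ (∀ j, A j ≠ B j) → ∑ i, f i A * g i B = 0) :
    t ^ r ≤ (Fintype.card ι + 1) ^ l + 1 := by
  classical
  obtain ⟨κ, hκ⟩ : ∃ κ : ℚ, κ = ∏ s : Fin l, (-(((s : ℕ) : ℚ) + 1)) := ⟨_, rfl⟩
  have hκ0 : κ ≠ 0 := by
    rw [hκ]
    refine Finset.prod_ne_zero_iff.2 (fun s _ => ?_)
    have : (0 : ℚ) < ((s : ℕ) : ℚ) + 1 := by positivity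
    linarith
  obtain ⟨F, hF0, hF1⟩ : ∃ F : Option ι → (Fin r → Fin t) → ℚ,
      (∀ A, F none A = 1) ∧ ∀ i A, F (some i) A = f i A :=
    ⟨fun o A => o.elim 1 (fun i => f i A), fun _ => rfl, fun _ _ => rfl⟩
  obtain ⟨G, hG0, hG1⟩ : ∃ G : Fin l → Option ι → (Fin r → Fin t) → ℚ,
      (∀ s B, G s none B = -(((s : ℕ) : ℚ) + 1)) ∧ ∀ s i B, G s (some i) B = g i B :=
    ⟨fun s o B => o.elim (-(((s : ℕ) : ℚ) + 1)) (fun i => g i B), fun _ _ => rfl,
      fun _ _ _ => rfl⟩
  have hexp : ∀ A B : Fin r → Fin t, ∑ φ : Fin l → Option ι,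
      (∏ s, F (φ s) A) * ∏ s, G s (φ s) B =
      ∏ s : Fin l, (-(((s : ℕ) : ℚ) + 1) + ∑ i, f i A * g i B) := by
    intro A B
    have h2 := Finset.prod_univ_sum (fun _ : Fin l => (Finset.univ : Finset (Option ι)))
      (fun s o => F o A * G s o B)
    rw [Fintype.piFinset_univ] at h2
    rw [Finset.sum_congr rfl (fun φ _ => (Finset.prod_mul_distrib).symm), ← h2]
    refine Finset.prod_congr rfl (fun s _ => ?_)
    rw [Fintype.sum_option, hF0, hG0, one_mul]
    congr 1
    exact Finset.sum_congr rfl (fun i _ => by rw [hF1, hG1])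
  obtain ⟨P, hP0, hP1⟩ : ∃ P : Matrix (Fin r → Fin t) (Option (Fin l → Option ι)) ℚ,
      (∀ A, P A none = 1) ∧ ∀ A φ, P A (some φ) = ∏ s, F (φ s) A :=
    ⟨fun A o => o.elim 1 (fun φ => ∏ s, F (φ s) A), fun _ => rfl, fun _ _ => rfl⟩
  obtain ⟨Q, hQ0, hQ1⟩ : ∃ Q : Matrix (Option (Fin l → Option ι)) (Fin r → Fin t) ℚ,
      (∀ B, Q none B = 1) ∧ ∀ φ B, Q (some φ) B = -κ⁻¹ * ∏ s, G s (φ s) B :=
    ⟨fun o B => o.elim 1 (fun φ => -κ⁻¹ * ∏ s, G s (φ s) B), fun _ => rfl, fun _ _ => rfl⟩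
  have hPQ : ∀ A B, (P * Q) A B = if ∀ j, A j ≠ B j then (1 : ℚ) else 0 := by
    intro A B
    rw [Matrix.mul_apply, Fintype.sum_option, hP0, hQ0]
    have e : ∀ φ : Fin l → Option ι, P A (some φ) * Q (some φ) B =
        -κ⁻¹ * ((∏ s, F (φ s) A) * ∏ s, G s (φ s) B) := by
      intro φ; rw [hP1, hQ1]; ring
    rw [Finset.sum_congr rfl (fun φ _ => e φ), ← Finset.mul_sum, hexp]
    by_cases h : ∀ j, A j ≠ B j
    · obtain ⟨s, hs⟩ := h1 A B h
      rw [if_pos h, Finset.prod_eq_zero (Finset.mem_univ s) (by rw [hs]; ring)]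
      ring
    · rw [if_neg h, h0 A B h]
      simp only [add_zero]
      rw [← hκ]
      field_simp
      ring
  have hfin := card_le_of_factor P Q
    (fun B C => ∏ j, (1 / ((t : ℚ) - 1) - if B j = C j then 1 else 0)) (by
      ext A C
      rw [Matrix.mul_apply, Finset.sum_congr rfl (fun B _ => by rw [hPQ A B]), Matrix.one_apply]
      exact inv_all ht A C)
  simpa using hfin

lemma main_ineq {k n m l r t ε : ℕ} (H : Fin m → KPart k n) (hH : IsCovering l H)
    (hk : k = r + (r + ε)) (ht : 2 ≤ t) (hn : r * t + ε ≤ n) :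
    t ^ r ≤ (m * 2 ^ k + 1) ^ l + 1 := by
  classical
  obtain ⟨ι⟩ : Nonempty ((Fin r × Fin t) ⊕ Fin ε ↪ Fin n) :=
    Function.Embedding.nonempty_of_card_le (by simpa using hn)
  obtain ⟨U, hU⟩ : ∃ U : (Fin r → Fin t) → Finset (Fin n),
      ∀ A, U A = Finset.univ.image (fun j => ι (Sum.inl (j, A j))) := ⟨_, fun _ => rfl⟩
  obtain ⟨E, hE⟩ : ∃ E : Finset (Fin n), E = Finset.univ.image (fun j => ι (Sum.inr j)) :=
    ⟨_, rfl⟩
  have cU : ∀ A, (U A).card = r := by
    intro A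
    rw [hU, Finset.card_image_of_injective]
    · simp
    · intro a b hab
      have := ι.injective hab
      simp only [Sum.inl.injEq, Prod.mk.injEq] at this
      exact this.1
  have cE : E.card = ε := by
    rw [hE, Finset.card_image_of_injective]
    · simp
    · intro a b hab
      simpa using ι.injective hab
  have dUE : ∀ A, Disjoint (U A) E := by
    intro A
    rw [Finset.disjoint_left, hU, hE]
    intro a ha hb
    simp only [Finset.mem_image, Finset.mem_univ, true_and] at ha hb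
    obtain ⟨i, rfl⟩ := ha
    obtain ⟨j, hj⟩ := hb
    simpa using ι.injective hj
  have dUU : ∀ A B, Disjoint (U A) (U B) ↔ ∀ j, A j ≠ B j := by
    intro A B
    rw [Finset.disjoint_left, hU, hU]
    constructor
    · intro h j hj
      refine h (Finset.mem_image_of_mem _ (Finset.mem_univ j)) ?_
      rw [hj]
      exact Finset.mem_image_of_mem (fun j => ι (Sum.inl (j, B j))) (Finset.mem_univ j)
    · intro h a ha hb
      simp only [Finset.mem_image, Finset.mem_univ, true_and] at ha hb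
      obtain ⟨i, rfl⟩ := ha
      obtain ⟨j, hj⟩ := hb
      have := ι.injective hj
      simp only [Sum.inl.injEq, Prod.mk.injEq] at this
      obtain ⟨rfl, h2⟩ := this
      exact h j h2.symm
  have hsum : ∀ A B : Fin r → Fin t,
      ∑ p : Fin m × Finset (Fin k),
        (if hit (H p.1) (U A) = p.2 ∧ good (H p.1) (U A) then (1 : ℚ) else 0) *
        (if hit (H p.1) (U B ∪ E) = p.2ᶜ ∧ good (H p.1) (U B ∪ E) then (1 : ℚ) else 0) =
      ((Finset.univ.filter (fun i => Disjoint (U A) (U B ∪ E) ∧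
        IsEdge (H i) (U A ∪ (U B ∪ E)))).card : ℚ) := by
    intro A B
    rw [Fintype.sum_prod_type, Finset.card_filter]
    push_cast
    refine Finset.sum_congr rfl (fun i _ => ?_)
    rw [Finset.sum_eq_single (hit (H i) (U A))]
    · by_cases h : Disjoint (U A) (U B ∪ E) ∧ IsEdge (H i) (U A ∪ (U B ∪ E))
      · have h' := (key _ _ _).2 h
        rw [if_pos h, if_pos ⟨rfl, h'.2⟩, if_pos h'.1, one_mul]
      · rw [if_neg h]
        by_cases g1 : good (H i) (U A)
        · rw [if_neg (fun g2 => h ((key _ _ _).1 ⟨g2, g1⟩)), mul_zero]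
        · rw [if_neg (fun g2 => g1 g2.2), zero_mul]
    · intro S _ hS
      rw [if_neg (fun g => hS g.1.symm), zero_mul]
    · intro h; exact absurd (Finset.mem_univ _) h
  have hfin := rank_arg (r := r) (l := l) ht (ι := Fin m × Finset (Fin k))
    (fun p A => if hit (H p.1) (U A) = p.2 ∧ good (H p.1) (U A) then (1 : ℚ) else 0)
    (fun p B => if hit (H p.1) (U B ∪ E) = p.2ᶜ ∧ good (H p.1) (U B ∪ E) then (1 : ℚ) else 0)
    (by
      intro A B h
      have hd : Disjoint (U A) (U B ∪ E) :=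
        Finset.disjoint_union_right.2 ⟨(dUU A B).2 h, dUE A⟩
      have hc : (U A ∪ (U B ∪ E)).card = k := by
        rw [Finset.card_union_of_disjoint hd, Finset.card_union_of_disjoint (dUE B), cU, cU, cE,
          hk]
      obtain ⟨c1, c2⟩ := hH _ hc
      rw [hsum]
      have e : (Finset.univ.filter (fun i => Disjoint (U A) (U B ∪ E) ∧
          IsEdge (H i) (U A ∪ (U B ∪ E)))) =
          Finset.univ.filter (fun i => IsEdge (H i) (U A ∪ (U B ∪ E))) := by
        ext i; simp only [Finset.mem_filter, Finset.mem_univ, true_and]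
        exact ⟨fun h => h.2, fun h => ⟨hd, h⟩⟩
      rw [e]
      obtain ⟨c, hc'⟩ : ∃ c, c = (Finset.univ.filter
        (fun i => IsEdge (H i) (U A ∪ (U B ∪ E)))).card := ⟨_, rfl⟩
      rw [← hc'] at c1 c2 ⊢
      refine ⟨⟨c - 1, by omega⟩, ?_⟩
      have : c = (c - 1) + 1 := by omega
      exact_mod_cast this)
    (by
      intro A B h
      rw [hsum]
      have e : (Finset.univ.filter (fun i => Disjoint (U A) (U B ∪ E) ∧
          IsEdge (H i) (U A ∪ (U B ∪ E)))) = ∅ := by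
        refine Finset.filter_eq_empty_iff.2 (fun i _ g => h ?_)
        exact (dUU A B).1 (Finset.disjoint_union_right.1 g.1).1
      rw [e]; simp)
  simpa using hfin

lemma exists_cov (k l n : ℕ) (hl : 1 ≤ l) :
    ∃ m, ∃ H : Fin m → KPart k n, IsCovering l H := by
  classical
  obtain ⟨K, hK⟩ : ∃ K : {e : Finset (Fin n) // e.card = k} → KPart k n,
      ∀ e j, (K e).part j = {e.1.orderEmbOfFin e.2 j} :=
    ⟨fun e => ⟨fun j => {e.1.orderEmbOfFin e.2 j}, fun j => Finset.singleton_nonempty _,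
      fun i j hij => Finset.disjoint_singleton.2
        (fun h => hij ((e.1.orderEmbOfFin e.2).injective h))⟩, fun _ _ => rfl⟩
  have hE : ∀ e (e' : Finset (Fin n)), IsEdge (K e) e' ↔ e' = e.1 := by
    intro e e'
    have him : Finset.univ.image (e.1.orderEmbOfFin e.2) = e.1 := by
      apply Finset.coe_injective
      rw [Finset.coe_image, Finset.coe_univ, Set.image_univ, Finset.range_orderEmbOfFin]
    constructor
    · rintro ⟨x, hx, rfl⟩
      have : x = e.1.orderEmbOfFin e.2 := by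
        funext j
        have := hx j
        rw [hK] at this
        exact Finset.mem_singleton.1 this
      rw [this, him]
    · rintro rfl
      exact ⟨e.1.orderEmbOfFin e.2, fun j => by rw [hK]; exact Finset.mem_singleton_self _,
        him.symm⟩
  obtain ⟨φ⟩ : Nonempty (Fin (Fintype.card {e : Finset (Fin n) // e.card = k}) ≃
    {e : Finset (Fin n) // e.card = k}) := ⟨(Fintype.equivFin _).symm⟩
  refine ⟨_, fun i => K (φ i), fun e he => ?_⟩
  have : (Finset.univ.filter (fun i => IsEdge (K (φ i)) e)) = {φ.symm ⟨e, he⟩} := by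
    ext i
    simp only [Finset.mem_filter, Finset.mem_univ, true_and, Finset.mem_singleton, hE]
    constructor
    · intro h
      rw [Equiv.eq_symm_apply]
      exact Subtype.ext h.symm
    · rintro rfl
      simp
  rw [this]
  simpa using hl

lemma lower_half (k l : ℕ) (hk : 2 ≤ k) (hl : 1 ≤ l) :
    ∃ c : ℝ, 0 < c ∧ ∀ n : ℕ, k ≤ n →
      (∃ m, ∃ H : Fin m → KPart k n, IsCovering l H) ∧
      c * (n : ℝ) ^ (((k / 2 : ℕ) : ℝ) / (l : ℝ)) ≤ (mm k l n : ℝ) := by
  classical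
  obtain ⟨r, hr⟩ : ∃ r, r = k / 2 := ⟨_, rfl⟩
  rw [← hr]
  have hr1 : 1 ≤ r := by omega
  have hk0 : (0 : ℝ) < k := by positivity
  have hl0 : (0 : ℝ) < l := by positivity
  refine ⟨1 / ((k : ℝ) ^ ((r : ℝ) / (l : ℝ)) * 2 ^ (k + 2)), by positivity, fun n hn => ?_⟩
  have hex := exists_cov k l n hl
  refine ⟨hex, ?_⟩
  obtain ⟨H, hH⟩ : ∃ H : Fin (mm k l n) → KPart k n, IsCovering l H := Nat.sInf_mem hex
  obtain ⟨m, hm⟩ : ∃ m, m = mm k l n := ⟨_, rfl⟩
  have hm1 : 1 ≤ m := by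
    obtain ⟨e, -, he⟩ := Finset.exists_subset_card_eq (s := (Finset.univ : Finset (Fin n)))
      (n := k) (by simpa using hn)
    have := (hH e he).1
    have h2 := Finset.card_filter_le (Finset.univ : Finset (Fin (mm k l n)))
      (fun i => IsEdge (H i) e)
    simp only [Finset.card_univ, Fintype.card_fin] at h2
    omega
  obtain ⟨t, ht⟩ : ∃ t, t = (n - k % 2) / r := ⟨_, rfl⟩
  have ht2 : 2 ≤ t := by
    rw [ht, Nat.le_div_iff_mul_le (by omega)]
    omega
  have h1 : r * t ≤ n - k % 2 := by rw [ht]; exact Nat.mul_div_le _ _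
  have h2 : n - k % 2 < r * (t + 1) := by rw [ht]; exact Nat.lt_mul_div_succ _ (by omega)
  have hmain := main_ineq (r := r) (t := t) (ε := k % 2) H hH (by omega) ht2 (by omega)
  rw [← hm] at hmain ⊢
  have hnk : n ≤ k * t := by
    have a1 : r * 2 ≤ r * t := Nat.mul_le_mul_left _ ht2
    have a2 : (2 * r) * t ≤ k * t := Nat.mul_le_mul_right _ (by omega)
    have a3 : r * (t + 1) = r * t + r := by ring
    have a4 : (2 * r) * t = 2 * (r * t) := by ring
    omega
  have h3 : (m * 2 ^ k + 1) ^ l + 1 ≤ (2 ^ (k + 2) * m) ^ l := by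
    have b1 : 1 ≤ m * 2 ^ k := Nat.mul_pos hm1 (by positivity)
    have b2 : (m * 2 ^ k + 1) ^ l ≤ (2 * (m * 2 ^ k)) ^ l := Nat.pow_le_pow_left (by omega) _
    have b3 : 1 ≤ (2 * (m * 2 ^ k)) ^ l := Nat.one_le_pow _ _ (by omega)
    have b4 : 2 ≤ 2 ^ l := by
      calc 2 = 2 ^ 1 := by norm_num
        _ ≤ 2 ^ l := Nat.pow_le_pow_right (by norm_num) hl
    have b5 : (2 ^ (k + 2) * m) ^ l = 2 ^ l * (2 * (m * 2 ^ k)) ^ l := by
      rw [← mul_pow]; congr 1; ring
    have b6 : 2 * (2 * (m * 2 ^ k)) ^ l ≤ 2 ^ l * (2 * (m * 2 ^ k)) ^ l :=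
      Nat.mul_le_mul_right _ b4
    omega
  have h4 : n ^ r ≤ k ^ r * (2 ^ (k + 2) * m) ^ l := by
    calc n ^ r ≤ (k * t) ^ r := Nat.pow_le_pow_left hnk _
      _ = k ^ r * t ^ r := mul_pow _ _ _
      _ ≤ _ := Nat.mul_le_mul_left _ (hmain.trans h3)
  have h5 : (n : ℝ) ^ r ≤ (k : ℝ) ^ r * (2 ^ (k + 2) * (m : ℝ)) ^ l := by exact_mod_cast h4
  have h6 : (n : ℝ) ^ ((r : ℝ) / (l : ℝ)) ≤
      (k : ℝ) ^ ((r : ℝ) / (l : ℝ)) * (2 ^ (k + 2) * (m : ℝ)) := by
    have e1 : ∀ x : ℝ, 0 ≤ x → x ^ ((r : ℝ) / (l : ℝ)) = (x ^ r) ^ ((l : ℝ)⁻¹) := by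
      intro x hx
      rw [div_eq_mul_inv, Real.rpow_mul hx, Real.rpow_natCast]
    rw [e1 _ (by positivity), e1 _ hk0.le]
    have e2 : (2 ^ (k + 2) * (m : ℝ)) = ((2 ^ (k + 2) * (m : ℝ)) ^ l) ^ ((l : ℝ)⁻¹) :=
      (Real.pow_rpow_inv_natCast (by positivity) (by omega)).symm
    rw [e2, ← Real.mul_rpow (by positivity) (by positivity)]
    exact Real.rpow_le_rpow (by positivity) h5 (by positivity)
  rw [one_div, inv_mul_le_iff₀ (by positivity)]
  calc _ ≤ _ := h6
    _ = _ := by ring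

lemma hash_cover {k l n p : ℕ} (h : Fin l → Fin n → Fin p)
    (hh : ∀ e : Finset (Fin n), e.card = k → ∃ j, Set.InjOn (h j) e) :
    mm k l n ≤ l * p ^ k := by
  classical
  obtain ⟨I, hI⟩ : ∃ I : Finset (Fin l × Finset (Fin p)), ∀ q, q ∈ I ↔
      q.2.card = k ∧ ∀ y ∈ q.2, ∃ x, h q.1 x = y :=
    ⟨Finset.univ.filter (fun q => q.2.card = k ∧ ∀ y ∈ q.2, ∃ x, h q.1 x = y), fun q => by simp⟩
  obtain ⟨K, hK⟩ : ∃ K : I → KPart k n, ∀ q i x, x ∈ (K q).part i ↔
      h q.1.1 x = q.1.2.orderEmbOfFin ((hI q.1).1 q.2).1 i := by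
    refine ⟨fun q => ⟨fun i => Finset.univ.filter
      (fun x => h q.1.1 x = q.1.2.orderEmbOfFin ((hI q.1).1 q.2).1 i), fun i => ?_,
      fun i j hij => ?_⟩, fun q i x => by simp⟩
    · obtain ⟨x, hx⟩ := ((hI q.1).1 q.2).2 _ (Finset.orderEmbOfFin_mem q.1.2 ((hI q.1).1 q.2).1 i)
      exact ⟨x, Finset.mem_filter.2 ⟨Finset.mem_univ _, hx⟩⟩
    · rw [Finset.disjoint_left]
      intro x h1 h2
      exact hij ((q.1.2.orderEmbOfFin ((hI q.1).1 q.2).1).injective
        ((Finset.mem_filter.1 h1).2.symm.trans (Finset.mem_filter.1 h2).2))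
  have him : ∀ (S : Finset (Fin p)) (hS : S.card = k),
      Finset.univ.image (S.orderEmbOfFin hS) = S := by
    intro S hS
    apply Finset.coe_injective
    rw [Finset.coe_image, Finset.coe_univ, Set.image_univ, Finset.range_orderEmbOfFin]
  have hE : ∀ (q : I) (e : Finset (Fin n)), IsEdge (K q) e → e.image (h q.1.1) = q.1.2 := by
    rintro q e ⟨x, hx, rfl⟩
    rw [Finset.image_image, ← him q.1.2 ((hI q.1).1 q.2).1]
    congr 1
    funext i
    exact (hK q i (x i)).1 (hx i)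
  have hcov : IsCovering l (fun i => K (I.equivFin.symm i)) := by
    intro e he
    constructor
    · obtain ⟨j, hj⟩ := hh e he
      have hc : (e.image (h j)).card = k := by rw [Finset.card_image_of_injOn hj, he]
      have hq : (j, e.image (h j)) ∈ I := (hI _).2 ⟨hc, fun y hy => by
        obtain ⟨x, -, hx⟩ := Finset.mem_image.1 hy
        exact ⟨x, hx⟩⟩
      refine Finset.card_pos.2 ⟨I.equivFin ⟨_, hq⟩, Finset.mem_filter.2 ⟨Finset.mem_univ _, ?_⟩⟩
      beta_reduce
      rw [Equiv.symm_apply_apply]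
      have hx : ∀ i, ∃ x ∈ e, h j x = (e.image (h j)).orderEmbOfFin hc i := fun i =>
        Finset.mem_image.1 (Finset.orderEmbOfFin_mem _ hc i)
      choose x hx1 hx2 using hx
      refine ⟨x, fun i => (hK ⟨_, hq⟩ i (x i)).2 (hx2 i), ?_⟩
      symm
      refine Finset.eq_of_subset_of_card_le (fun y hy => ?_) ?_
      · obtain ⟨i, -, rfl⟩ := Finset.mem_image.1 hy
        exact hx1 i
      · rw [Finset.card_image_of_injective _ (fun a b hab =>
          ((e.image (h j)).orderEmbOfFin hc).injective (by rw [← hx2, ← hx2, hab])), he]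
        simp
    · have h1 : (Finset.univ.filter (fun i => IsEdge (K (I.equivFin.symm i)) e)).card ≤
          (Finset.univ : Finset (Fin l)).card := by
        refine Finset.card_le_card_of_injOn (fun i => (I.equivFin.symm i).1.1)
          (fun _ _ => Finset.mem_coe.2 (Finset.mem_univ _)) (fun a ha b hb hab => ?_)
        have h2 := hE _ e (Finset.mem_filter.1 (Finset.mem_coe.1 ha)).2
        have h3 := hE _ e (Finset.mem_filter.1 (Finset.mem_coe.1 hb)).2
        have hab' : (I.equivFin.symm a).1.1 = (I.equivFin.symm b).1.1 := hab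
        refine I.equivFin.symm.injective (Subtype.ext (Prod.ext hab' ?_))
        rw [← h2, ← h3, hab']
      simpa using h1
  have h1 : mm k l n ≤ I.card := Nat.sInf_le ⟨_, hcov⟩
  have h2 : I ⊆ Finset.univ ×ˢ Finset.powersetCard k Finset.univ := fun q hq =>
    Finset.mem_product.2 ⟨Finset.mem_univ _,
      Finset.mem_powersetCard.2 ⟨Finset.subset_univ _, ((hI q).1 hq).1⟩⟩
  have h3 := Finset.card_le_card h2
  rw [Finset.card_product, Finset.card_powersetCard, Finset.card_univ, Finset.card_univ,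
    Fintype.card_fin, Fintype.card_fin] at h3
  exact h1.trans (h3.trans (Nat.mul_le_mul_left _ (Nat.choose_le_pow _ _)))

lemma rs_cover {k l n d p : ℕ} (hp : p.Prime) (hl : l ≤ p) (hn : n ≤ p ^ (d + 1))
    (hd : k * k * d < l) : mm k l n ≤ l * p ^ k := by
  classical
  have : Fact p.Prime := ⟨hp⟩
  obtain ⟨a⟩ : Nonempty (Fin n ↪ (Fin (d + 1) → ZMod p)) :=
    Function.Embedding.nonempty_of_card_le (by simpa using hn)
  obtain ⟨u⟩ : Nonempty (Fin l ↪ ZMod p) :=
    Function.Embedding.nonempty_of_card_le (by simpa using hl)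
  obtain ⟨w⟩ : Nonempty (ZMod p ↪ Fin p) :=
    Function.Embedding.nonempty_of_card_le (by simp)
  obtain ⟨g, hg⟩ : ∃ g : Fin l → Fin n → ZMod p, ∀ j x, g j x = ∑ i, a x i * u j ^ (i : ℕ) :=
    ⟨_, fun _ _ => rfl⟩
  have hbad : ∀ x y, x ≠ y → (Finset.univ.filter (fun j => g j x = g j y)).card ≤ d := by
    intro x y hxy
    by_contra hlt
    obtain ⟨T, hT1, hT2⟩ := Finset.exists_subset_card_eq
      (s := Finset.univ.filter (fun j => g j x = g j y)) (n := d + 1) (by omega)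
    have hz := Matrix.eq_zero_of_forall_index_sum_mul_pow_eq_zero
      (f := fun r => u (T.orderEmbOfFin hT2 r)) (v := a x - a y)
      (u.injective.comp (T.orderEmbOfFin hT2).injective) (fun r => by
        have h1 := (Finset.mem_filter.1 (hT1 (Finset.orderEmbOfFin_mem T hT2 r))).2
        rw [hg, hg] at h1
        simp only [Pi.sub_apply, sub_mul, Finset.sum_sub_distrib]
        rw [h1, sub_self])
    exact hxy (a.injective (sub_eq_zero.1 hz))
  refine hash_cover (fun j x => w (g j x)) (fun e he => ?_)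
  have h1 : (e.offDiag.biUnion
      (fun q => Finset.univ.filter (fun j => g j q.1 = g j q.2))).card ≤ e.offDiag.card * d :=
    Finset.card_biUnion_le_card_mul _ _ _ (fun q hq => hbad _ _ (Finset.mem_offDiag.1 hq).2.2)
  have h2 : e.offDiag.card * d ≤ k * k * d := by
    rw [Finset.offDiag_card, he]
    exact Nat.mul_le_mul_right _ (Nat.sub_le _ _)
  obtain ⟨j, -, hj⟩ := Finset.exists_mem_notMem_of_card_lt_card
    (s := e.offDiag.biUnion (fun q => Finset.univ.filter (fun j => g j q.1 = g j q.2)))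
    (t := Finset.univ) (by rw [Finset.card_univ, Fintype.card_fin]; omega)
  refine ⟨j, fun x hx y hy hxy => ?_⟩
  by_contra hne
  exact hj (Finset.mem_biUnion.2 ⟨(x, y), Finset.mem_offDiag.2 ⟨hx, hy, hne⟩,
    Finset.mem_filter.2 ⟨Finset.mem_univ _, w.injective hxy⟩⟩)

lemma all_parts (k l : ℕ) (hk : 2 ≤ k) (hl : 1 ≤ l) :
    (∃ c : ℝ, 0 < c ∧ ∀ n : ℕ, k ≤ n →
      (∃ m, ∃ H : Fin m → KPart k n, IsCovering l H) ∧
      c * (n : ℝ) ^ (((k / 2 : ℕ) : ℝ) / (l : ℝ)) ≤ (mm k l n : ℝ)) ∧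
    ∀ d : ℕ, k * k * d < l → ∃ C : ℝ, 0 < C ∧ ∀ n : ℕ, k ≤ n →
      (mm k l n : ℝ) ≤ C * (n : ℝ) ^ ((k : ℝ) / ((d : ℝ) + 1)) := by
  refine ⟨lower_half k l hk hl, fun d hd => ⟨l * (4 * l) ^ k, by positivity, fun n hn => ?_⟩⟩
  have hn1 : (1 : ℝ) ≤ n := by exact_mod_cast (by omega : 1 ≤ n)
  obtain ⟨a, ha⟩ : ∃ a : ℝ, a = (n : ℝ) ^ (((d + 1 : ℕ) : ℝ)⁻¹) := ⟨_, rfl⟩
  have ha1 : 1 ≤ a := by rw [ha]; exact Real.one_le_rpow hn1 (by positivity)
  have had : a ^ (d + 1) = n := by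
    rw [ha]; exact Real.rpow_inv_natCast_pow (by positivity) (by omega)
  have hak : a ^ k = (n : ℝ) ^ ((k : ℝ) / ((d : ℝ) + 1)) := by
    rw [ha, ← Real.rpow_natCast, ← Real.rpow_mul (by positivity)]
    congr 1
    push_cast
    ring
  obtain ⟨t, ht⟩ : ∃ t : ℕ, t = ⌊a⌋₊ + 1 := ⟨_, rfl⟩
  have ht1 : a ≤ t := by rw [ht]; push_cast; exact (Nat.lt_floor_add_one a).le
  have ht2 : (t : ℝ) ≤ 2 * a := by
    have := Nat.floor_le (by linarith : 0 ≤ a)
    rw [ht]; push_cast; linarith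
  have ht0 : 1 ≤ t := by omega
  obtain ⟨p, hp, hp1, hp2⟩ := Nat.exists_prime_lt_and_le_two_mul (l * t)
    (Nat.mul_pos hl ht0).ne'
  have b1 : l ≤ l * t := Nat.le_mul_of_pos_right _ ht0
  have b2 : t ≤ l * t := Nat.le_mul_of_pos_left _ hl
  have b3 : n ≤ t ^ (d + 1) := by
    have : (n : ℝ) ≤ (t : ℝ) ^ (d + 1) := by
      rw [← had]; exact pow_le_pow_left₀ (by linarith) ht1 _
    exact_mod_cast this
  have h1 := rs_cover (k := k) (n := n) (d := d) hp (by omega)
    (b3.trans (Nat.pow_le_pow_left (by omega) _)) hd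
  have h2 : (mm k l n : ℝ) ≤ l * (p : ℝ) ^ k := by exact_mod_cast h1
  have h3 : (p : ℝ) ≤ 4 * l * a := by
    have c1 : (p : ℝ) ≤ 2 * (l * t) := by exact_mod_cast hp2
    have c2 : (0 : ℝ) ≤ l := by positivity
    nlinarith
  rw [← hak, mul_assoc, ← mul_pow]
  exact h2.trans (mul_le_mul_of_nonneg_left (pow_le_pow_left₀ (by positivity) h3 k)
    (by positivity))

theorem result (k l : ℕ) (hk : 2 ≤ k) (hl : 1 ≤ l) :
    ∃ c : ℝ, 0 < c ∧ ∀ n : ℕ, k ≤ n →
      (∃ m, ∃ H : Fin m → KPart k n, IsCovering l H) ∧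
      c * (n : ℝ) ^ (((k / 2 : ℕ) : ℝ) / (l : ℝ)) ≤ (mm k l n : ℝ) :=
  lower_half k l hk hl

end Pool.Agent.Results.MP_f91e62_co.Lower
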