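import Mathlib
import Pool.Agent.Results.MP_f91e62_co.Lower

namespace Pool.Agent.Results.MP_f91e62_co.Upper

open Pool.Agent.Results.MP_f91e62_co.Lower

theorem result (k l d : ℕ) (hk : 2 ≤ k) (hd : k * k * d < l) :
    ∃ C : ℝ, 0 < C ∧ ∀ n : ℕ, k ≤ n →
      (mm k l n : ℝ) ≤ C * (n : ℝ) ^ ((k : ℝ) / ((d : ℝ) + 1)) :=
  (all_parts k l hk (by omega)).2 d hd

end Pool.Agent.Results.MP_f91e62_co.Upper
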